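import Pool.Agent.Helper73.Reg.Zero

/-!
For every nonempty binary pattern `v`: the sequence `(A_v(d))` is never `2`-regular, and
the sequence `(A_v(0,d))` is `2`-regular exactly when `v` consists of zeros only.
-/

namespace Pool.Agent.Results.MP_6350a9_co.PatternRegularity

open Pool.Agent.Helper73.Reg

/-- sanity check against the example `e_001(9) = 2` -/
example : ev [false, false, true] 9 = 2 := by decide

theorem result (v : List Bool) (hv : v ≠ []) :
    (∀ n d : ℕ, 1 ≤ d → (changes v n d).Nonempty) ∧
    (∀ d : ℕ, 1 ≤ d → BddAbove (Set.range fun n => lenAP v n d)) ∧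
    (TwoRegular (fun d => if d = 0 then 0 else (lenAP v 0 d : ℤ)) ↔ true ∉ v) ∧
    ¬ TwoRegular (fun d => if d = 0 then 0 else (maxAP v d : ℤ)) :=
  ⟨fun n _ hd => changes_nonempty hv n hd, fun _ hd => bddAbove_lenAP hv hd, classification hv⟩

end Pool.Agent.Results.MP_6350a9_co.PatternRegularity
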